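import Pool.Agent.W528.Ord.MotAll

/-!
# Dense ordinary reduction: a criterion in terms of number field points

`B` is a finitely generated integral domain, `X` a smooth projective scheme over `B`; `F j s` is the
characteristic polynomial of the geometric Frobenius element on the `j`-th `ℓ`-adic cohomology group of
the fibre at the closed point `s`, `H j` the multiset of the Hodge slopes (the numbers `i`, with
multiplicity `h^{i, j - i}`) of the generic fibre.

A closed point `s` with residue field `𝔽_p` is called ordinary if the Newton polygon of `F j s` is the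
Hodge polygon, for all `j`; for all `s` in some nonempty open set this means that the fibre is ordinary
in the sense of Bloch and Kato (as the crystalline cohomology is torsion free).

If every nonempty open subset of `Spec B` has a point in a number field `K` whose fibre satisfies the
orbit criterion, the ordinary closed points are dense in `Spec B`.
-/

set_option autoImplicit false

namespace Pool.Agent.Results.MP_adc574_ag.NumberFieldPoints

open NumberField IsDedekindDomain Polynomial
open Pool.Agent.W401.Cheb Pool.Agent.W528.Ord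

/-- `s` is a closed point with residue field `𝔽_p` at which all Newton polygons are the Hodge polygons -/
def OrdinaryPoint {B : Type} [CommRing B] {J : Type} (F : J → PrimeSpectrum B → Polynomial ℤ)
    (H : J → Multiset ℕ) (s : PrimeSpectrum B) : Prop :=
  s.asIdeal.IsMaximal ∧ ∃ p : ℕ, Nat.card (B ⧸ s.asIdeal) = p ∧ ∀ j, NewtonSlopes p (F j s) (H j)

/-- A point `f` of `Spec B` in a number field `K` at which `a` does not vanish; the `j`-th cohomology
group of the fibre is the sum of `m j i` copies of pieces `A i` with multiplication by totally real or CM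
fields, and some element `γ` of the Galois group of `K` satisfies the orbit condition for all of them. -/
structure CriterionPoint {B : Type} [CommRing B] {J : Type} (F : J → PrimeSpectrum B → Polynomial ℤ)
    (H : J → Multiset ℕ) (a : B) where
  K : Type
  [fieldK : Field K]
  [numberFieldK : NumberField K]
  f : B →+* K
  ℓ : ℕ
  [primeℓ : Fact ℓ.Prime]
  ι : Type
  [finι : Fintype ι]
  A : ι → MotSystem K ℓ
  m : J → ι → ℕ
  χ : GK K →* (PadicAlgCl ℓ)ˣ
  S : Finset ℕ
  nonzero : f a ≠ 0
  isMotive : ∀ i, (A i).IsMotive χ S
  slopes_eq : ∀ j, MotSystem.slopes A (m j) = H j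
  frobenius : ∀ (v : HeightOneSpectrum (𝓞 K)) (s : PrimeSpectrum B), MultSystem.IsDeg1 S v →
    IsCentre f v s → ∀ j, (F j s).map (Int.castRingHom (AlgebraicClosure K)) =
      MotSystem.prodPoly A (m j) v
  γ : GK K
  admissible : ∀ i, (A i).Admissible γ

theorem result (B : Type) [CommRing B] [IsDomain B] [Algebra.FiniteType ℤ B] (J : Type)
    (F : J → PrimeSpectrum B → Polynomial ℤ) (H : J → Multiset ℕ)
    (hF : ∀ a : B, a ≠ 0 → Nonempty (CriterionPoint F H a)) :
    Dense {s : PrimeSpectrum B | OrdinaryPoint F H s} := by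
  rw [PrimeSpectrum.isTopologicalBasis_basic_opens.dense_iff]
  rintro _ ⟨a, rfl⟩ ⟨s₀, hs₀⟩
  have ha : a ≠ 0 := by
    rintro rfl
    exact hs₀ (Ideal.zero_mem _)
  obtain ⟨c⟩ := hF a ha
  obtain ⟨K, f, ℓ, ι, A, m, χ, S, hfa, hA, hsl, hfr, γ, hγ⟩ := c
  have hinf := MotSystem.infinite_good A χ S hA ⟨γ, hγ⟩
  have hbad : ({v : HeightOneSpectrum (𝓞 K) | ∃ x, 1 < v.valuation K (f x)} ∪
      HeightOneSpectrum.Support (𝓞 K) (f a)⁻¹).Finite :=
    (finite_support f).union (HeightOneSpectrum.Support.finite (𝓞 K) _)
  obtain ⟨v, ⟨hv, hg⟩, hvb⟩ := hinf.exists_notMem_finite hbad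
  rw [Set.mem_union, not_or] at hvb
  have hint : ∀ x, v.valuation K (f x) ≤ 1 := by
    intro x
    by_contra h
    exact hvb.1 ⟨x, not_le.mp h⟩
  obtain ⟨s, hs, hmax, hcard⟩ := exists_centre f v hv.1 hint
  refine ⟨s, ?_, hmax, _, hcard, fun j => ?_⟩
  · change a ∉ s.asIdeal
    rw [(hs a).2]
    intro hlt
    apply hvb.2
    change 1 < v.valuation K (f a)⁻¹
    rw [map_inv₀]
    exact (one_lt_inv₀ (by
      rw [zero_lt_iff]
      exact (Valuation.ne_zero_iff _).mpr hfa)).mpr hlt
  · rw [← hsl j]
    exact MotSystem.newton_of_good A χ S hA (m j) hv hg (F j s) (hfr v s hv hs j)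

end Pool.Agent.Results.MP_adc574_ag.NumberFieldPoints
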